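import Pool.Agent.N699.SA.PA
import Pool.Agent.W93.MB

set_option autoImplicit false

/-! The `L²` norm over the nearly extremal frequencies, for the von Mangoldt function along the multiples of `a`. -/

namespace Pool.Agent.N699.SA
open Finset
open Pool.Agent.H807R2.Dav
open Pool.Agent.H373R2.T7 (lamz sup_diff ev_L')
open Pool.Agent.W93.DG
open Pool.Agent.W93.RD
open Pool.Agent.W93.TD (p1_num p3_num G_sq)
open Pool.Agent.W93.LM

/-- the von Mangoldt function minus its model, along the multiples of `a` -/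
noncomputable def dL (a X' z : ℕ) : ℕ → ℂ := dil a X' (fun n => ((ArithmeticFunction.vonMangoldt n - lamz z n : ℝ) : ℂ))

/-- from the bound at good approximations to major and minor arcs -/
lemma PP_of (N V : ℕ) (hV : 4 ≤ V) (hVN : (V * V) * (V * V) ≤ N) (f : ℕ → ℝ) (c0 : ℝ) (hc0 : 0 ≤ c0)
    (H : ∀ q : ℕ, 1 ≤ q → q ≤ N → ∀ c : ℤ, IsCoprime c (q : ℤ) → ∀ α : ℝ, |α - c / q| ≤ 1 / (q : ℝ) ^ 2 →
      ‖∑ n ∈ Icc 1 N, ((f n : ℝ) : ℂ) * ee ((n : ℝ) * α)‖ ≤ c0 * Real.log N ^ 7 * (N * √(1 / (q : ℝ) + 1 / V + q / N))) :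
    PP (fun n => ((f n : ℝ) : ℂ)) (4 * c0) 7 N V := by
  intro α
  have hlog := Real.log_natCast_nonneg N
  refine ⟨fun q c hqc => ?_, fun hno => ?_⟩
  · obtain ⟨h1, h2, h3, h4⟩ := hqc
    have h5 := major_of N V hV hVN α _ (c0 * Real.log N ^ 7 * N) (by positivity) (fun q hq hqN c hc hα => by
        have := H q hq hqN c hc α hα
        rw [← mul_assoc] at this
        exact this) q h1 c h2 h3 h4
    refine h5.trans (le_of_eq ?_)
    ring
  · have hVV : V * V ≤ N := (Nat.le_mul_of_pos_left _ (Nat.mul_pos (by omega) (by omega))).trans hVN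
    obtain ⟨q, c, hq, hc, h | h⟩ := diri N V (by omega) hVV α
    · exact absurd ⟨q, c, hq, hc, h.1, h.2⟩ hno
    · obtain ⟨h1, h2, h3⟩ := h
      have h4 := H q hq ((Nat.le_mul_of_pos_right _ (by omega)).trans h2) c hc α h3
      rw [← mul_assoc] at h4
      have h5 := minor_of N V hV _ (c0 * Real.log N ^ 7 * N) (by positivity) q h1 h2 h4
      refine h5.trans (le_of_eq ?_)
      ring

lemma FC_sub (f g : ℕ → ℂ) (X M r : ℕ) : FC (fun n => f n - g n) X M r = FC f X M r - FC g X M r := by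
  unfold FC
  rw [← sum_sub_distrib]
  apply sum_congr rfl
  intro n _
  ring

lemma dil_sub (a X' : ℕ) (f g : ℕ → ℂ) : dil a X' (fun n => f n - g n) = fun n => dil a X' f n - dil a X' g n := by
  funext n
  unfold dil
  split_ifs
  · rfl
  · ring

lemma dil_pars (a X X' M : ℕ) (ha : 1 ≤ a) (h : a * X' ≤ X) (hM : 1 ≤ M) (hX : X ≤ M) (f : ℕ → ℂ) :
    ∑ r ∈ range M, ‖FC (dil a X' f) X M r‖ ^ 2 = M * ∑ n ∈ Icc 1 X', ‖f n‖ ^ 2 := by
  rw [FC_pars _ X M hM hX]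
  congr 1
  have h1 : ∀ n ∈ Icc 1 X, ‖dil a X' f n‖ ^ 2 = if a ∣ n ∧ n / a ≤ X' then ‖f (n / a)‖ ^ 2 else 0 := by
    intro n _
    unfold dil
    split_ifs
    · rfl
    · simp
  have h2 := sum_dilG a X X' ha h (fun n => (((‖f n‖ ^ 2 : ℝ)) : ℂ)) (fun _ => 1)
  have h3 : ((∑ n ∈ Icc 1 X, ‖dil a X' f n‖ ^ 2 : ℝ) : ℂ) = ((∑ n ∈ Icc 1 X', ‖f n‖ ^ 2 : ℝ) : ℂ) := by
    rw [Complex.ofReal_sum, Complex.ofReal_sum]
    simp only [mul_one] at h2
    rw [← h2]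
    apply sum_congr rfl
    intro n hn
    rw [h1 n hn]
    unfold dil
    split_ifs
    · rfl
    · simp
  exact_mod_cast h3

/-- the `L²` norm over the nearly extremal frequencies, along the multiples of `a` -/
theorem bad_sqA (b : ℕ) (hb : 2 ≤ b) : ∃ R : ℕ, 1 ≤ R ∧ ∀ e₀ U a B₁ : ℕ, 1 ≤ a → ∃ A B : ℕ, U ≤ A ∧ ∀ Ez : ℕ, ∃ k₀ : ℕ, ∀ k : ℕ, k₀ ≤ k →
    ∀ X' : ℕ, a * X' ≤ b ^ k → b ^ k ≤ B₁ * X' →
    ∀ z : ℕ, Real.log ((b ^ k : ℕ) : ℝ) ^ B ≤ z → (z : ℝ) ≤ Real.log ((b ^ k : ℕ) : ℝ) ^ Ez → ∀ r₀ μ : ℕ, 1 ≤ μ → μ ≤ b ^ e₀ →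
    ∀ S : Finset ℕ,
    (∀ r ∈ S, r < b ^ (k + 1) ∧ Bad b R k (hh b A k) (k / (16 * b)) ((μ * r + r₀) % b ^ (k + 1))) →
    ∑ r ∈ S, ‖FC (dL a X' z) (b ^ k) (b ^ (k + 1)) r‖ ^ 2 ≤ ((b ^ (k + 1) : ℕ) : ℝ) * ((b ^ k : ℕ) : ℝ) / (k : ℝ) ^ U := by
  classical
  obtain ⟨R, hR, hwt⟩ := wt_sum b hb
  refine ⟨R, hR, fun e₀ U a B₁ ha => ?_⟩
  obtain ⟨C, hwt⟩ := hwt e₀
  obtain ⟨A, hA⟩ : ∃ A, A = U + b + 24 := ⟨_, rfl⟩
  obtain ⟨U', hU'⟩ : ∃ U', U' = U + 10 * A + 2 := ⟨_, rfl⟩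
  obtain ⟨B, hsup⟩ := sup_diff (U' + 1)
  refine ⟨A, B, by omega, fun Ez => ?_⟩
  obtain ⟨n1, h1⟩ := hsup (Ez + 1)
  obtain ⟨n2, h2⟩ := model (Ez + 1) (U + 3)
  obtain ⟨n3, h3⟩ := ev_L' (2 ^ Ez + 2 ^ (U' + 1) + 2 ^ (U + 3) + 1)
  obtain ⟨k4, h4⟩ := hh_small b A 4 hb
  obtain ⟨k5, h5⟩ := half_big b (U + 2 + 16) hb
  have hbr : (2 : ℝ) ≤ b := by exact_mod_cast hb
  have hb0 : (0 : ℝ) < b := by linarith
  have hbn : 0 < b := by omega
  obtain ⟨c0, hc0⟩ : ∃ c0 : ℝ, c0 = 4 * 200000 * √(2 * B₁) := ⟨_, rfl⟩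
  have hc00 : 0 ≤ c0 := by rw [hc0]; positivity
  obtain ⟨C2, hC2⟩ : ∃ C2 : ℝ, C2 = c0 ^ 2 * (b : ℝ) ^ 16 * ((b : ℝ) ^ (e₀ + 2) + C) := ⟨_, rfl⟩
  obtain ⟨C3, hC3⟩ : ∃ C3 : ℝ, C3 = 6 * (b : ℝ) ^ 8 * (b : ℝ) ^ (10 * A) * 2 ^ U' := ⟨_, rfl⟩
  obtain ⟨C4, hC4⟩ : ∃ C4 : ℝ, C4 = 2 ^ (U + 2) := ⟨_, rfl⟩
  have hC20 : 0 ≤ C2 := by rw [hC2]; positivity
  have hC30 : 0 ≤ C3 := by rw [hC3]; positivity
  have hC40 : 0 ≤ C4 := by rw [hC4]; positivity
  obtain ⟨k6, hk6⟩ := exists_nat_ge (2 * C2 + C3 + 2 * C4)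
  refine ⟨(n1 + n2 + n3 + 4) * (B₁ + 1) * (B₁ + 1) + k4 + k5 + k6 + 48 * b * (16 * (B₁ + 1)) + 4 * e₀ + 15,
    fun k hk X' hX'1 hX'2 z hz1 hz2 r₀ μ hμ1 hμb S hS => ?_⟩
  obtain ⟨X, hX⟩ : ∃ X, X = b ^ k := ⟨_, rfl⟩
  obtain ⟨M, hM⟩ : ∃ M, M = b ^ (k + 1) := ⟨_, rfl⟩
  have hkX : k < X := by rw [hX]; exact Nat.lt_pow_self (by omega)
  have hXM : X ≤ M := by rw [hX, hM]; exact Nat.pow_le_pow_right hbn (by omega)
  rw [← hX] at hX'1 hX'2 hz1 hz2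
  have hB₁ : 1 ≤ B₁ := by
    by_contra hcon
    have : B₁ = 0 := by omega
    rw [this, zero_mul] at hX'2
    omega
  have hkbig : (n1 + n2 + n3 + 4) * (B₁ + 1) * (B₁ + 1) ≤ k := by omega
  have hX'big : n1 + n2 + n3 + 4 ≤ X' := by
    by_contra hcon
    push Not at hcon
    have e1 : B₁ * X' ≤ B₁ * (n1 + n2 + n3 + 4) := Nat.mul_le_mul_left _ hcon.le
    have e2 : B₁ * (n1 + n2 + n3 + 4) ≤ (n1 + n2 + n3 + 4) * (B₁ + 1) * (B₁ + 1) := by nlinarith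
    omega
  have hk1 : 1 ≤ k := by omega
  have hkr : (1 : ℝ) ≤ k := by exact_mod_cast hk1
  have hk0 : (0 : ℝ) < k := by linarith
  have hX0 : (0 : ℝ) < X := by exact_mod_cast (by omega : 0 < X)
  have hX'0 : (0 : ℝ) < X' := by exact_mod_cast (by omega : 0 < X')
  have hXMr : (X : ℝ) ≤ M := by exact_mod_cast hXM
  have hM0 : (0 : ℝ) < M := by linarith
  have hXX' : X' ≤ X := (Nat.le_mul_of_pos_left _ ha).trans hX'1
  have hXX'r : (X' : ℝ) ≤ X := by exact_mod_cast hXX'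
  obtain ⟨hL1, hL2⟩ := logX b k hb
  rw [← hX] at hL1 hL2
  obtain ⟨L, hL⟩ : ∃ L, L = Real.log (X : ℝ) := ⟨_, rfl⟩
  rw [← hL] at hL1 hL2 hz1 hz2
  have hL0 : 0 < L := by linarith
  have hLge1 : 1 ≤ L := by
    have : (2 : ℝ) ≤ k := by exact_mod_cast (by omega : 2 ≤ k)
    linarith
  -- the logarithm of X'
  obtain ⟨l, hl⟩ : ∃ l, l = Real.log (X' : ℝ) := ⟨_, rfl⟩
  have hlL : l ≤ L := by rw [hl, hL]; exact Real.log_le_log hX'0 hXX'r
  have hLl : L ≤ 2 * l := by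
    -- X ≤ B₁ X' and B₁ ≤ X'
    have e1 : B₁ ≤ X' := by
      have e3 : B₁ * (n1 + n2 + n3 + 4) * (B₁ + 1) ≤ (n1 + n2 + n3 + 4) * (B₁ + 1) * (B₁ + 1) := by nlinarith
      have e4 : B₁ * B₁ < B₁ * X' := by
        have e5 : B₁ * B₁ ≤ B₁ * (n1 + n2 + n3 + 4) * (B₁ + 1) := by nlinarith [Nat.zero_le (n1 + n2 + n3)]
        omega
      exact (Nat.lt_of_mul_lt_mul_left e4).le
    have e2 : X ≤ X' * X' := hX'2.trans (Nat.mul_le_mul_right _ e1)
    have e3 : (X : ℝ) ≤ X' * X' := by exact_mod_cast e2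
    have e4 := Real.log_le_log hX0 e3
    rw [Real.log_mul hX'0.ne' hX'0.ne', ← hl, ← hL] at e4
    linarith
  have hlbig := h3 X' (by omega)
  rw [← hl] at hlbig
  have hE2 : (0 : ℝ) < 2 ^ Ez := by positivity
  have hU2 : (0 : ℝ) < 2 ^ (U' + 1) := by positivity
  have hU3 : (0 : ℝ) < 2 ^ (U + 3) := by positivity
  have hl0 : 0 < l := by linarith
  have hz : 1 ≤ z := by
    have : (1 : ℝ) ≤ z := (one_le_pow₀ hLge1).trans hz1
    exact_mod_cast this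
  have hzl1 : l ^ B ≤ z := (pow_le_pow_left₀ hl0.le hlL B).trans hz1
  have hzl2 : (z : ℝ) ≤ l ^ (Ez + 1) := by
    refine hz2.trans ?_
    calc L ^ Ez ≤ (2 * l) ^ Ez := pow_le_pow_left₀ hL0.le hLl _
      _ = 2 ^ Ez * l ^ Ez := mul_pow _ _ _
      _ ≤ l * l ^ Ez := by
          apply mul_le_mul_of_nonneg_right _ (by positivity)
          linarith
      _ = _ := by ring
  obtain ⟨m, hm⟩ : ∃ m, m = k / (16 * b) := ⟨_, rfl⟩
  obtain ⟨h, hh'⟩ : ∃ h, h = hh b A k := ⟨_, rfl⟩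
  have hm2 : 3 * (16 * (B₁ + 1)) ≤ m := by
    rw [hm]
    apply (Nat.le_div_iff_mul_le (by omega)).2
    have : 3 * (16 * (B₁ + 1)) * (16 * b) = 48 * b * (16 * (B₁ + 1)) := by ring
    omega
  have hmk : 16 * b * m ≤ k := by rw [hm]; exact Nat.mul_div_le k (16 * b)
  have hmk32 : 32 * m ≤ k := by
    have h7 : 16 * 2 * m ≤ 16 * b * m := Nat.mul_le_mul_right _ (Nat.mul_le_mul_left _ hb)
    omega
  have hhk : 4 * h ≤ k := by rw [hh']; exact h4 k (by omega)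
  have hhup := hh_up b A k hk1
  have hhhalf := hh_half b A k hb hk1
  rw [← hh'] at hhup hhhalf
  rw [← hX, ← hM]
  simp only [← hM, ← hm, ← hh'] at hS
  -- the levels of the major arcs
  obtain ⟨V, hV⟩ : ∃ V, V = b ^ m := ⟨_, rfl⟩
  obtain ⟨V', hV'⟩ : ∃ V', V' = V / B₁ := ⟨_, rfl⟩
  have hmV : m < V := by rw [hV]; exact Nat.lt_pow_self (by omega)
  have hV'4 : 4 ≤ V' := by
    rw [hV']
    apply (Nat.le_div_iff_mul_le (by omega)).2
    omega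
  have hVa : B₁ * V' ≤ V := by rw [hV']; exact Nat.mul_div_le V B₁
  have hVb : V ≤ 2 * B₁ * V' := by
    have e1 := Nat.div_add_mod V B₁
    have e2 := Nat.mod_lt V (by omega : 0 < B₁)
    rw [← hV'] at e1
    have e3 : B₁ * 1 ≤ B₁ * V' := Nat.mul_le_mul_left _ (by omega)
    have e4 : 2 * B₁ * V' = B₁ * V' + B₁ * V' := by ring
    omega
  have hV'V : V' ≤ V := (Nat.le_mul_of_pos_left _ (by omega)).trans hVa
  have hV8 : V * V * (V * V) * (V * V * (V * V)) ≤ X := by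
    rw [hV, hX, ← pow_add, ← pow_add, ← pow_add]
    exact Nat.pow_le_pow_right hbn (by omega)
  have hV4X' : V * V * (V * V) ≤ X' := by
    by_contra hcon
    push Not at hcon
    have e1 : B₁ * X' ≤ B₁ * (V * V * (V * V)) := Nat.mul_le_mul_left _ hcon.le
    have e2 : B₁ < V := by omega
    have e3 : V ≤ V * V * (V * V) := by
      have : 1 ≤ V * V * V := Nat.mul_pos (Nat.mul_pos (by omega) (by omega)) (by omega)
      calc V = 1 * V := (one_mul _).symm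
        _ ≤ V * V * V * V := Nat.mul_le_mul_right _ this
        _ = _ := by ring
    have e4 : B₁ * (V * V * (V * V)) < V * V * (V * V) * (V * V * (V * V)) := by
      have e5 : 0 < V := by omega
      have e6 : 0 < V * V * (V * V) := Nat.mul_pos (Nat.mul_pos e5 e5) (Nat.mul_pos e5 e5)
      exact Nat.mul_lt_mul_of_pos_right (by omega) e6
    omega
  have hPP1 := PP_of X' V' hV'4 ((Nat.mul_le_mul (Nat.mul_le_mul hV'V hV'V) (Nat.mul_le_mul hV'V hV'V)).trans hV4X')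
  obtain ⟨r', hrL, hrM⟩ := h2 X' (by omega) z hz (by rw [← hl]; exact hzl2)
  have hPP2 := hPP1 (fun n => ArithmeticFunction.vonMangoldt n - lamR z r' n) 200000 (by norm_num) (fun q hq hqN c hc α hα =>
    hrM V' q (by omega) ((Nat.mul_le_mul (Nat.mul_le_mul hV'V hV'V) (Nat.mul_le_mul hV'V hV'V)).trans hV4X') hq hqN c hc α hα)
  have hPP := PP_dil a B₁ X X' V V' ha (by omega) hX'1 hX'2 (by omega) hVa hVb (by
    have e1 : V * V' ≤ V * V := Nat.mul_le_mul_left _ hV'V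
    have e2 : 4 * (V * V) ≤ V * V * (V * V) := by
      apply Nat.mul_le_mul_right
      have : 4 * 4 ≤ V * V := Nat.mul_le_mul (by omega) (by omega)
      omega
    omega) _ _ 7 (by norm_num) hPP2
  -- the functions
  obtain ⟨f1, hf1⟩ : ∃ f1 : ℕ → ℂ, f1 = dil a X' (fun n => ((ArithmeticFunction.vonMangoldt n - lamR z r' n : ℝ) : ℂ)) := ⟨_, rfl⟩
  obtain ⟨f2, hf2⟩ : ∃ f2 : ℕ → ℂ, f2 = dil a X' (fun n => ((lamz z n - lamR z r' n : ℝ) : ℂ)) := ⟨_, rfl⟩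
  rw [← hf1, ← hc0] at hPP
  obtain ⟨PL, hPL⟩ : ∃ PL : ℕ → Prop, PL = fun r => ∃ i₁ i₂ i₃ : ℕ, i₁ ≤ h ∧ i₂ ≤ h ∧ i₃ ≤ h ∧ InScale b k (b * m) i₁ i₂ i₃ r := ⟨_, rfl⟩
  have hpt : ∀ r, ¬ PL r → ‖FC f1 X M r‖ ^ 2 ≤ (c0 * L ^ 8 * X) ^ 2 * wt b k m h r := by
    intro r hr
    rw [hPL] at hr
    have h6 := pointwise2 b hb k m h c0 7 hc00 f1 (by rw [← hX, ← hV]; exact hPP) r hr
    rw [← hX, ← hM, ← hL] at h6
    refine h6.trans ?_
    apply mul_le_mul_of_nonneg_right _ (by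
      unfold wt
      apply add_nonneg (by positivity)
      apply sum_nonneg
      intro i _
      split_ifs <;> positivity)
    apply pow_le_pow_left₀ (by positivity)
    apply mul_le_mul_of_nonneg_right _ hX0.le
    apply mul_le_mul_of_nonneg_left _ hc00
    exact pow_le_pow_right₀ hLge1 (by norm_num)
  rw [← sum_filter_add_sum_filter_not S PL]
  -- small scales
  have hpart1 : ∑ r ∈ S.filter PL, ‖FC (dL a X' z) X M r‖ ^ 2 ≤ C3 * (M * X / (k : ℝ) ^ (U + 2)) := by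
    have e1 : ∀ r ∈ S.filter PL, ‖FC (dL a X' z) X M r‖ ^ 2 ≤ (X / L ^ U') ^ 2 := by
      intro r _
      apply pow_le_pow_left₀ (norm_nonneg _)
      have e2 := h1 X' (by omega) z (by rw [← hl]; exact hzl1) (by rw [← hl]; exact hzl2) ((a : ℝ) * ((r : ℝ) / (M : ℝ)))
      have e3 : FC (dL a X' z) X M r = ∑ n ∈ Icc 1 X', ((ArithmeticFunction.vonMangoldt n - lamz z n : ℝ) : ℂ) *
          ee ((n : ℝ) * ((a : ℝ) * ((r : ℝ) / (M : ℝ)))) := by
        unfold FC dL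
        exact sum_dil a X X' ha hX'1 _ _
      rw [e3]
      refine e2.trans ?_
      rw [← hl]
      calc (X' : ℝ) / l ^ (U' + 1) ≤ X / l ^ (U' + 1) := div_le_div_of_nonneg_right hXX'r (by positivity)
        _ ≤ X / L ^ U' := by
            apply div_le_div_of_nonneg_left hX0.le (by positivity)
            have e4 : L ^ (U' + 1) ≤ 2 ^ (U' + 1) * l ^ (U' + 1) := by
              rw [← mul_pow]; exact pow_le_pow_left₀ hL0.le hLl _
            have e5 : 2 ^ (U' + 1) * L ^ U' ≤ L ^ (U' + 1) := by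
              rw [pow_succ L, mul_comm (L ^ U')]
              apply mul_le_mul_of_nonneg_right _ (by positivity)
              linarith
            have e6 : 2 ^ (U' + 1) * L ^ U' ≤ 2 ^ (U' + 1) * l ^ (U' + 1) := e5.trans e4
            exact le_of_mul_le_mul_left e6 hU2
    have e2 : ((S.filter PL).card : ℝ) ≤ (b : ℝ) ^ (5 * h + 8) := by
      have := log_count b k (b * m) h hb (by omega) (S.filter PL) (fun r hr => by
        rw [mem_filter] at hr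
        rw [← hM]
        refine ⟨(hS r hr.1).1, ?_⟩
        have := hr.2
        rw [hPL] at this
        exact this)
      exact_mod_cast this
    calc _ ≤ ∑ _r ∈ S.filter PL, ((X : ℝ) / L ^ U') ^ 2 := sum_le_sum e1
      _ = ((S.filter PL).card : ℝ) * (X / L ^ U') ^ 2 := by rw [sum_const, nsmul_eq_mul]
      _ ≤ _ := by
          rw [hC3]
          exact p1_num b k X M L _ U U' A h hb0 hk0 hX0 hXMr hL1 hLge1 (by omega) e2 hhup
  -- large scales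
  have hpart2 : ∑ r ∈ S.filter (fun r => ¬ PL r), ‖FC f1 X M r‖ ^ 2 ≤ C2 * (M * X / (k : ℝ) ^ (U + 2)) := by
    have e1 : ∑ r ∈ S.filter (fun r => ¬ PL r), wt b k m h r ≤
        (b : ℝ) ^ (e₀ + 2) / 2 ^ (m / 2) + C * (k : ℝ) ^ (b + 4) / (b : ℝ) ^ (h / 2) :=
      hwt k m h r₀ μ hm (by omega) (by omega) hμ1 hμb _ (fun r hr => by
        rw [← hM]
        exact hS r (mem_filter.1 hr).1)
    have e2 : (b : ℝ) ^ (e₀ + 2) / 2 ^ (m / 2) + C * (k : ℝ) ^ (b + 4) / (b : ℝ) ^ (h / 2) ≤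
        ((b : ℝ) ^ (e₀ + 2) + C) / (k : ℝ) ^ ((U + 2) + 16) :=
      e2_num b ((b : ℝ) ^ (e₀ + 2)) C k b A (U + 2) (m / 2) (h / 2) hb0 (by positivity) (Nat.cast_nonneg _) hkr
        (by rw [hm]; exact h5 k (by omega)) hhhalf (by omega)
    calc _ ≤ ∑ r ∈ S.filter (fun r => ¬ PL r), (c0 * L ^ 8 * X) ^ 2 * wt b k m h r :=
          sum_le_sum fun r hr => hpt r (mem_filter.1 hr).2
      _ = (c0 * L ^ 8 * X) ^ 2 * ∑ r ∈ S.filter (fun r => ¬ PL r), wt b k m h r := by rw [mul_sum]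
      _ ≤ _ := by
          rw [hC2]
          exact p2_num c0 b k X M L ((b : ℝ) ^ (e₀ + 2) + C) _ U hc00 hb0 hk0 hX0 hXMr hL0.le hL2 (by positivity)
            (e1.trans e2)
  -- the difference of the models
  have hpart3 : ∑ r ∈ S.filter (fun r => ¬ PL r), ‖FC f2 X M r‖ ^ 2 ≤ C4 * (M * X / (k : ℝ) ^ (U + 2)) := by
    have hsub : S.filter (fun r => ¬ PL r) ⊆ range M := by
      intro r hr
      rw [mem_range]
      exact (hS r (mem_filter.1 hr).1).1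
    have e1 : ∑ r ∈ S.filter (fun r => ¬ PL r), ‖FC f2 X M r‖ ^ 2 ≤ ∑ r ∈ range M, ‖FC f2 X M r‖ ^ 2 :=
      sum_le_sum_of_subset_of_nonneg hsub fun _ _ _ => by positivity
    rw [hf2, dil_pars a X X' M ha hX'1 (by omega) hXM] at e1
    rw [hf2]
    refine e1.trans ?_
    rw [hC4]
    apply p3_num k X M L _ U hk0 hX0 hM0 hL1
    have e2 : ∑ n ∈ Icc 1 X', ‖((lamz z n - lamR z r' n : ℝ) : ℂ)‖ ^ 2 = ∑ n ∈ Icc 1 X', (lamz z n - lamR z r' n) ^ 2 := by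
      apply sum_congr rfl
      intro n _
      rw [Complex.norm_real, Real.norm_eq_abs, sq_abs]
    rw [e2]
    refine hrL.trans ?_
    rw [← hl]
    calc (X' : ℝ) / l ^ (U + 3) ≤ X / l ^ (U + 3) := div_le_div_of_nonneg_right hXX'r (by positivity)
      _ ≤ X / L ^ (U + 2) := by
          apply div_le_div_of_nonneg_left hX0.le (by positivity)
          have e4 : L ^ (U + 3) ≤ 2 ^ (U + 3) * l ^ (U + 3) := by
            rw [← mul_pow]; exact pow_le_pow_left₀ hL0.le hLl _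
          have e5 : 2 ^ (U + 3) * L ^ (U + 2) ≤ L ^ (U + 3) := by
            rw [pow_succ L (U + 2), mul_comm (L ^ (U + 2))]
            apply mul_le_mul_of_nonneg_right _ (by positivity)
            linarith
          have e6 : 2 ^ (U + 3) * L ^ (U + 2) ≤ 2 ^ (U + 3) * l ^ (U + 3) := e5.trans e4
          exact le_of_mul_le_mul_left e6 hU3
  have hpart4 : ∑ r ∈ S.filter (fun r => ¬ PL r), ‖FC (dL a X' z) X M r‖ ^ 2 ≤
      2 * ∑ r ∈ S.filter (fun r => ¬ PL r), ‖FC f1 X M r‖ ^ 2 +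
      2 * ∑ r ∈ S.filter (fun r => ¬ PL r), ‖FC f2 X M r‖ ^ 2 := by
    rw [mul_sum, mul_sum, ← sum_add_distrib]
    apply sum_le_sum
    intro r _
    have e1 : FC (dL a X' z) X M r = FC f1 X M r - FC f2 X M r := by
      rw [← FC_sub]
      congr 1
      rw [hf1, hf2]
      unfold dL
      have e0 := dil_sub a X' (fun n => ((ArithmeticFunction.vonMangoldt n - lamR z r' n : ℝ) : ℂ)) (fun n => ((lamz z n - lamR z r' n : ℝ) : ℂ))
      rw [← e0]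
      congr 1
      funext n
      push_cast
      ring
    rw [e1]
    have e2 := norm_sub_le (FC f1 X M r) (FC f2 X M r)
    have e3 := norm_nonneg (FC f1 X M r - FC f2 X M r)
    nlinarith [sq_nonneg (‖FC f1 X M r‖ - ‖FC f2 X M r‖), pow_le_pow_left₀ e3 e2 2]
  have hY : 0 ≤ (M : ℝ) * X / (k : ℝ) ^ (U + 2) := by positivity
  have hfin : (2 * C2 + C3 + 2 * C4) * (M * X / (k : ℝ) ^ (U + 2)) ≤ M * X / (k : ℝ) ^ U :=
    fin_num k (2 * C2 + C3 + 2 * C4) (M * X) U hkr (hk6.trans (by exact_mod_cast (by omega : k6 ≤ k))) (by positivity)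
  linarith

end Pool.Agent.N699.SA
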