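import Pool.Agent.N699.SA.OL
import Pool.Agent.N469.PT.One

set_option autoImplicit false

/-! One random constant with mirror-dependent digits: the von Mangoldt function along the multiples of `a`. -/

namespace Pool.Agent.N699.SA
open Finset
open Pool.Agent.H807R2.Dav
open Pool.Agent.W93.DG
open Pool.Agent.W93.RD
open Pool.Agent.W93.AU
open Pool.Agent.TH872.Mir
open Pool.Agent.N469.PT

theorem mirror_oneA (b B : ℕ) (hb : 2 ≤ b) (η : ℝ) (hη : 0 < η) (κκ : ℤ) (hκκ : κκ ≠ 0) (Bc U a Bx : ℕ) (ha : 1 ≤ a) (hBx : 1 ≤ Bx) :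
    ∃ B0 : ℕ, ∀ E : ℕ, ∃ N₀ : ℕ, ∀ N, N₀ ≤ N → ∀ (k : ℕ) (w : ℕ → ℕ × ℕ → ℝ) (u : ℕ → ℝ), b ^ k ≤ B * N → N ≤ B * b ^ k →
    Mirr b (k / 2) η w → (∀ a, 0 ≤ u a) → ∑ a ∈ range b, u a = 1 → ∀ cc : ℤ, |cc| ≤ (Bc : ℤ) * N →
    ∀ X' N' : ℕ, X' ≤ Bx * N → N ≤ Bx * X' → N' ≤ Bx * N →
    ∀ z : ℕ, Real.log N ^ B0 ≤ z → (z : ℝ) ≤ Real.log N ^ E → ∀ Kc : ℝ, 0 < Kc → ∀ G : ℕ → ℝ, (∀ n ∈ Icc 1 N', |G n| ≤ Kc) →
      ∑ v ∈ range (b ^ k), weight b k w u v * |∑ n ∈ Icc 1 N', G n * dLI a X' z ((n : ℤ) + (cc + κκ * v))| ≤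
        Kc * (N / Real.log N ^ U) := by
  have hbn : 0 < b := by omega
  have hB1 : (1 : ℝ) < b := by exact_mod_cast (by omega : 1 < b)
  have hb0 : (0 : ℝ) < b := by linarith
  have hlogB : 0 < Real.log b := Real.log_pos hB1
  obtain ⟨κ', hκ'⟩ : ∃ κ' : ℕ, κ' = κκ.natAbs := ⟨_, rfl⟩
  have hκ'z : |κκ| = (κ' : ℤ) := by rw [hκ']; exact (Int.natCast_natAbs κκ).symm
  -- the number of additional digits
  obtain ⟨e, he⟩ : ∃ e, e = B + (Bc * B + Bx * B + 3 * κ') + a * (Bx * B) + 1 := ⟨_, rfl⟩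
  have hbe : e < b ^ e := Nat.lt_pow_self (by omega)
  obtain ⟨B₁, hB₁⟩ : ∃ B₁, B₁ = b ^ e * B * Bx := ⟨_, rfl⟩
  -- the laws for both parities
  have hD : ∀ s : ℕ, ∃ D : ℕ, ∀ m K : ℕ, K = 2 * m + s + e → 1 ≤ K →
    ∀ w : ℕ → ℕ × ℕ → ℝ, Mirr b m η w → ∀ cc : ℤ,
    Law b (FF0 b κκ) D (2 * (U + 1) + 6) K (Gs b m) (pw w) (fun g => cc + κκ * (val b (2 * m + s) g : ℕ)) :=
    fun s => mir_law b hb η hη κκ e s (2 * (U + 1) + 6)
  choose D hlaw using hD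
  have hone := fun s : ℕ => one_lawA b (FF0 b κκ) hb (FF0_pos b κκ hκκ) (U + 1) (D s) a B₁ ha
  choose B0 hone using hone
  refine ⟨B0 0 + B0 1 + 1, fun E => ?_⟩
  have hone' := fun s : ℕ => hone s E
  choose K0 hK0 using hone'
  obtain ⟨K1, hK1⟩ := exists_nat_ge ((b : ℝ) ^ e * B * Real.log b ^ U + 1)
  obtain ⟨R, hR⟩ := exists_nat_ge ((2 : ℝ) ^ (B0 0 + B0 1) + Real.log ((b : ℝ) ^ e * (B + 1)) + 1)
  refine ⟨B * b ^ (K0 0 + K0 1 + K1 + 5) + 3 ^ R + 3, fun N hN k w u hk1 hk2 hw hu0 hu1 cc hcc X' N' hX'1 hX'2 hN' z hz1 hz2 Kc hKc G hG => ?_⟩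
  obtain ⟨P3, hP3⟩ : ∃ P3 : ℕ, P3 = 3 ^ R := ⟨_, rfl⟩
  rw [← hP3] at hN
  have hB : 1 ≤ B := by
    by_contra hcon
    have : B = 0 := by omega
    rw [this, zero_mul] at hk2
    omega
  -- the digits
  have hk : K0 0 + K0 1 + K1 + 5 ≤ k := by
    by_contra hcon
    push Not at hcon
    have h1 : b ^ k ≤ b ^ (K0 0 + K0 1 + K1 + 5) := Nat.pow_le_pow_right hbn hcon.le
    have h2 := Nat.mul_le_mul_left B h1
    omega
  obtain ⟨m, hm⟩ : ∃ m, m = k / 2 := ⟨_, rfl⟩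
  obtain ⟨s, hs⟩ : ∃ s, s = k % 2 := ⟨_, rfl⟩
  have hs1 : s ≤ 1 := by omega
  have hkms : k = 2 * m + s := by omega
  have hw' : Mirr b m η w := by rw [hm]; exact hw
  rw [hkms]
  have hNpos : 1 < N := by omega
  have hN0 : (0 : ℝ) < N := by exact_mod_cast (by omega : 0 < N)
  have hlog0 : 0 < Real.log N := Real.log_pos (by exact_mod_cast hNpos)
  obtain ⟨K, hK⟩ : ∃ K, K = 2 * m + s + e := ⟨_, rfl⟩
  have hKr : (K1 : ℝ) ≤ K := by exact_mod_cast (by omega : K1 ≤ K)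
  have hK0' : (1 : ℝ) ≤ K := by exact_mod_cast (by omega : 1 ≤ K)
  have hkK : b ^ k * b ^ e = b ^ K := by rw [← pow_add]; congr 1; omega
  have hsz : ∀ z' : ℕ, z' < b → s * z' * b ^ m ≤ b ^ k := by
    intro z' hz'
    have h0 : s = 0 ∨ s = 1 := by omega
    rcases h0 with h0 | h0
    · rw [h0, zero_mul, zero_mul]; exact Nat.zero_le _
    · rw [h0]
      calc 1 * z' * b ^ m = z' * b ^ m := by ring
        _ ≤ b * b ^ m := Nat.mul_le_mul_right _ hz'.le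
        _ = b ^ (m + 1) := by ring
        _ ≤ _ := Nat.pow_le_pow_right hbn (by omega)
  have heK : e * b ^ k < b ^ K := by
    rw [← hkK, mul_comm (b ^ k)]
    exact Nat.mul_lt_mul_of_pos_right hbe (Nat.pow_pos hbn)
  have hsize : ∀ z' : ℕ, z' < b → ∀ g ∈ Gs b m, Bx * N + ((Bc * N) + κ' * (s * z' * b ^ m) + κ' * val b (2 * m + s) g) < b ^ K := by
    intro z' hz' g hg
    have h1 := hsz z' hz'
    have h2 := val_lt b m s hbn g hg
    rw [← hkms] at h2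
    have h3 : κ' * (s * z' * b ^ m) ≤ κ' * b ^ k := Nat.mul_le_mul_left _ h1
    have h4 : κ' * val b (2 * m + s) g ≤ κ' * (2 * b ^ k) := Nat.mul_le_mul_left _ (by rw [← hkms]; exact h2.le)
    have h5 : Bc * N ≤ Bc * (B * b ^ k) := Nat.mul_le_mul_left _ hk2
    have h6 : Bx * N ≤ Bx * (B * b ^ k) := Nat.mul_le_mul_left _ hk2
    calc Bx * N + ((Bc * N) + κ' * (s * z' * b ^ m) + κ' * val b (2 * m + s) g) ≤
          Bx * (B * b ^ k) + (Bc * (B * b ^ k) + κ' * b ^ k + κ' * (2 * b ^ k)) := by omega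
      _ = (Bc * B + Bx * B + 3 * κ') * b ^ k := by ring
      _ ≤ e * b ^ k := Nat.mul_le_mul_right _ (by omega)
      _ < b ^ K := heK
  have hNX : N ≤ b ^ K := by
    calc N ≤ B * b ^ k := hk2
      _ ≤ e * b ^ k := Nat.mul_le_mul_right _ (by omega)
      _ ≤ b ^ K := heK.le
  have hN'X : N' ≤ b ^ K := by
    calc N' ≤ Bx * N := hN'
      _ ≤ Bx * (B * b ^ k) := Nat.mul_le_mul_left _ hk2
      _ = (Bx * B) * b ^ k := by ring
      _ ≤ e * b ^ k := Nat.mul_le_mul_right _ (by omega)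
      _ ≤ b ^ K := heK.le
  have haX' : a * X' ≤ b ^ K := by
    calc a * X' ≤ a * (Bx * (B * b ^ k)) := Nat.mul_le_mul_left _ (hX'1.trans (Nat.mul_le_mul_left _ hk2))
      _ = (a * (Bx * B)) * b ^ k := by ring
      _ ≤ e * b ^ k := Nat.mul_le_mul_right _ (by omega)
      _ ≤ b ^ K := heK.le
  have hKX' : b ^ K ≤ B₁ * X' := by
    calc b ^ K = b ^ e * b ^ k := by rw [← hkK, mul_comm]
      _ ≤ b ^ e * (B * (Bx * X')) := Nat.mul_le_mul_left _ (hk1.trans (Nat.mul_le_mul_left _ hX'2))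
      _ = B₁ * X' := by rw [hB₁]; ring
  have hlogK : Real.log N ≤ K * Real.log b := by
    rw [← Real.log_pow]
    apply Real.log_le_log hN0
    exact_mod_cast hNX
  have hBKN : ((b ^ K : ℕ) : ℝ) ≤ (b : ℝ) ^ e * B * N := by
    have : b ^ K ≤ b ^ e * B * N := by
      rw [← hkK, mul_comm, mul_assoc]
      exact Nat.mul_le_mul_left _ hk1
    exact_mod_cast this
  have hU : Real.log N ^ U ≤ (K : ℝ) ^ U * Real.log b ^ U := by
    rw [← mul_pow]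
    exact pow_le_pow_left₀ hlog0.le hlogK U
  have hBK : ((b ^ K : ℕ) : ℝ) / (K : ℝ) ^ (U + 1) ≤ N / Real.log N ^ U := by
    rw [div_le_div_iff₀ (by positivity) (by positivity)]
    calc ((b ^ K : ℕ) : ℝ) * Real.log N ^ U ≤ ((b : ℝ) ^ e * B * N) * ((K : ℝ) ^ U * Real.log b ^ U) :=
          mul_le_mul hBKN hU (by positivity) (by positivity)
      _ = N * (((b : ℝ) ^ e * B * Real.log b ^ U) * (K : ℝ) ^ U) := by ring
      _ ≤ N * (K * (K : ℝ) ^ U) := by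
          apply mul_le_mul_of_nonneg_left _ hN0.le
          exact mul_le_mul_of_nonneg_right (by linarith) (by positivity)
      _ = _ := by rw [pow_succ]; ring
  have hlogR : (R : ℝ) ≤ Real.log N := by
    rw [Real.le_log_iff_exp_le hN0]
    have h1 : Real.exp (R : ℝ) ≤ (3 : ℝ) ^ R := by
      rw [show (R : ℝ) = R * 1 by ring, Real.exp_nat_mul]
      exact pow_le_pow_left₀ (Real.exp_pos _).le (by linarith [Real.exp_one_lt_d9]) R
    refine h1.trans ?_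
    exact_mod_cast (by rw [← hP3]; omega : 3 ^ R ≤ N)
  have hlX1 : Real.log N ≤ Real.log ((b ^ K : ℕ) : ℝ) := Real.log_le_log hN0 (by exact_mod_cast hNX)
  have hB0r : (0 : ℝ) ≤ B := Nat.cast_nonneg _
  have hc1 : 0 ≤ Real.log ((b : ℝ) ^ e * (B + 1)) := by
    apply Real.log_nonneg
    have h1 : 1 ≤ (b : ℝ) ^ e := one_le_pow₀ hB1.le
    nlinarith
  have hlX2 : Real.log ((b ^ K : ℕ) : ℝ) ≤ 2 * Real.log N := by
    have h1 : Real.log ((b ^ K : ℕ) : ℝ) ≤ Real.log (((b : ℝ) ^ e * (B + 1)) * N) := by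
      apply Real.log_le_log
      · exact_mod_cast (by positivity : 0 < b ^ K)
      · refine hBKN.trans ?_
        apply mul_le_mul_of_nonneg_right _ hN0.le
        apply mul_le_mul_of_nonneg_left _ (by positivity)
        linarith
    rw [Real.log_mul (by positivity) hN0.ne'] at h1
    have h2 : (0 : ℝ) < 2 ^ (B0 0 + B0 1) := by positivity
    linarith
  have hlogN1 : 1 ≤ Real.log N := by
    have h2 : (0 : ℝ) < 2 ^ (B0 0 + B0 1) := by positivity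
    linarith
  have hzX1 : Real.log ((b ^ K : ℕ) : ℝ) ^ (B0 s) ≤ z := by
    refine le_trans ?_ hz1
    have hBs : B0 s ≤ B0 0 + B0 1 := by
      have h0 : s = 0 ∨ s = 1 := by omega
      rcases h0 with h0 | h0 <;> rw [h0] <;> omega
    calc Real.log ((b ^ K : ℕ) : ℝ) ^ (B0 s) ≤ (2 * Real.log N) ^ (B0 s) := pow_le_pow_left₀ (by linarith) hlX2 _
      _ ≤ (2 * Real.log N) ^ (B0 0 + B0 1) := pow_le_pow_right₀ (by linarith) hBs
      _ = 2 ^ (B0 0 + B0 1) * Real.log N ^ (B0 0 + B0 1) := mul_pow _ _ _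
      _ ≤ Real.log N * Real.log N ^ (B0 0 + B0 1) := by
          apply mul_le_mul_of_nonneg_right _ (by positivity)
          linarith
      _ = Real.log N ^ (B0 0 + B0 1 + 1) := by ring
  have hzX2 : (z : ℝ) ≤ Real.log ((b ^ K : ℕ) : ℝ) ^ E := hz2.trans (pow_le_pow_left₀ hlog0.le hlX1 _)
  have hKK : K0 s ≤ K := by
    have h0 : s = 0 ∨ s = 1 := by omega
    rcases h0 with h0 | h0 <;> rw [h0] <;> omega
  have key : ∀ z' ∈ range b, ∑ g ∈ Gs b m, pw w g * |∑ n ∈ Icc 1 N', G n *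
      dLI a X' z ((n : ℤ) + (cc + κκ * ((val b (2 * m + s) g + s * z' * b ^ m : ℕ) : ℤ)))| ≤ Kc * (N / Real.log N ^ U) := by
    intro z' hz'
    rw [mem_range] at hz'
    have habs : ∀ g ∈ Gs b m, |(cc + κκ * ((s * z' * b ^ m : ℕ) : ℤ)) + κκ * (val b (2 * m + s) g : ℕ)| + (Bx * N : ℕ) < ((b ^ K : ℕ) : ℤ) := by
      intro g hg
      have h1 := hsize z' hz' g hg
      have h2 : |(cc + κκ * ((s * z' * b ^ m : ℕ) : ℤ)) + κκ * (val b (2 * m + s) g : ℕ)| ≤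
          (Bc : ℤ) * N + (κ' : ℤ) * ((s * z' * b ^ m : ℕ) : ℤ) + (κ' : ℤ) * (val b (2 * m + s) g : ℕ) := by
        refine (abs_add_le _ _).trans (add_le_add ((abs_add_le _ _).trans (add_le_add hcc ?_)) ?_)
        · rw [abs_mul, hκ'z, abs_of_nonneg (by positivity : (0 : ℤ) ≤ ((s * z' * b ^ m : ℕ) : ℤ))]
        · rw [abs_mul, hκ'z, abs_of_nonneg (by positivity : (0 : ℤ) ≤ ((val b (2 * m + s) g : ℕ) : ℤ))]
      have h3 : ((Bx * N + ((Bc * N) + κ' * (s * z' * b ^ m) + κ' * val b (2 * m + s) g) : ℕ) : ℤ) < ((b ^ K : ℕ) : ℤ) := by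
        exact_mod_cast h1
      push_cast at h2 h3 ⊢
      linarith
    have h := hK0 s K hKK X' haX' hKX' z hzX1 hzX2 (Fin m → ℕ × ℕ) (Gs b m) (pw w)
      (fun g => (cc + κκ * ((s * z' * b ^ m : ℕ) : ℤ)) + κκ * (val b (2 * m + s) g : ℕ))
      (hlaw s m K hK (by omega) w hw' _) (pw_sum hw') N' (fun g hg => by
        have h1 := habs g hg
        obtain ⟨h2, h3⟩ := abs_le.1 (le_refl |(cc + κκ * ((s * z' * b ^ m : ℕ) : ℤ)) + κκ * (val b (2 * m + s) g : ℕ)|)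
        have h4 : (N' : ℤ) ≤ ((Bx * N : ℕ) : ℤ) := by exact_mod_cast hN'
        have h5 : (0 : ℤ) ≤ ((Bx * N : ℕ) : ℤ) := by positivity
        constructor <;> linarith) hN'X Kc hKc G hG
    refine le_trans (le_of_eq ?_) (h.trans (mul_le_mul_of_nonneg_left hBK hKc.le))
    apply sum_congr rfl
    intro g _
    have e1 : cc + κκ * ((val b (2 * m + s) g + s * z' * b ^ m : ℕ) : ℤ) =
        (cc + κκ * ((s * z' * b ^ m : ℕ) : ℤ)) + κκ * (val b (2 * m + s) g : ℕ) := by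
      push_cast
      ring
    rw [e1]
  rw [weight_sum b m s hbn hs1 w u hu1]
  calc ∑ z' ∈ range b, u z' * ∑ g ∈ Gs b m, pw w g * |∑ n ∈ Icc 1 N', G n *
      dLI a X' z ((n : ℤ) + (cc + κκ * ((val b (2 * m + s) g + s * z' * b ^ m : ℕ) : ℤ)))|
      ≤ ∑ z' ∈ range b, u z' * (Kc * (N / Real.log N ^ U)) :=
        sum_le_sum fun z' hz' => mul_le_mul_of_nonneg_left (key z' hz') (hu0 z')
    _ = _ := by rw [← sum_mul, hu1, one_mul]

end Pool.Agent.N699.SA
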