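import Pool.Agent.N699.SA.BS
import Pool.Agent.W93.LM6
import Pool.Agent.W93.AU1
import Pool.Agent.W93.TD6

set_option autoImplicit false

/-! One random constant: the von Mangoldt function along the multiples of `a`. -/

namespace Pool.Agent.N699.SA
open Finset
open Pool.Agent.H807R2.Dav
open Pool.Agent.H373R2.T7 (lamz lamz_nonneg Vz Vz_inv_small Vz_pos lamI lamzI)
open Pool.Agent.W93.DG
open Pool.Agent.W93.RD
open Pool.Agent.W93.AU
open Pool.Agent.W93.TD (cs_w sqrt_num sqrt_num2)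
open Pool.Agent.W93.LM

/-- the mean square of the exponential sum -/
lemma G_sqA (E : ℕ) : ∃ N0 : ℕ, ∀ X : ℕ, N0 ≤ X → ∀ M : ℕ, X ≤ M → ∀ a X' : ℕ, 1 ≤ a → a * X' ≤ X → ∀ z : ℕ, 1 ≤ z → (z : ℝ) ≤ Real.log X ^ E →
    ∑ r ∈ range M, ‖FC (dL a X' z) X M r‖ ^ 2 ≤ M * (14 * X * Real.log X ^ 2) := by
  obtain ⟨N0, h0⟩ := Vz_inv_small E
  refine ⟨max N0 3, fun X hX M hXM a X' ha hX' z hz hzE => ?_⟩
  have hX3 : 3 ≤ X := le_trans (le_max_right _ _) hX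
  have hV := h0 X (le_trans (le_max_left _ _) hX) z hz hzE
  have hM0 : (0 : ℝ) < M := by exact_mod_cast (by omega : 0 < M)
  obtain ⟨L, hL⟩ : ∃ L : ℝ, L = Real.log (X : ℝ) := ⟨_, rfl⟩
  rw [← hL] at hV ⊢
  have hXX' : X' ≤ X := (Nat.le_mul_of_pos_left _ ha).trans hX'
  unfold dL
  rw [dil_pars a X X' M ha hX' (by omega) hXM]
  apply mul_le_mul_of_nonneg_left _ hM0.le
  have hb : ∀ n ∈ Icc 1 X', ‖((ArithmeticFunction.vonMangoldt n - lamz z n : ℝ) : ℂ)‖ ^ 2 ≤ L ^ 2 := by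
    intro n hn
    rw [mem_Icc] at hn
    rw [Complex.norm_real, Real.norm_eq_abs]
    apply pow_le_pow_left₀ (abs_nonneg _)
    have h1 : 0 ≤ ArithmeticFunction.vonMangoldt n := ArithmeticFunction.vonMangoldt_nonneg
    have h2 : ArithmeticFunction.vonMangoldt n ≤ L := by
      refine ArithmeticFunction.vonMangoldt_le_log.trans ?_
      rw [hL]
      exact Real.log_le_log (by exact_mod_cast hn.1) (by exact_mod_cast hn.2.trans hXX')
    have h3 := lamz_nonneg z n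
    have h4 : lamz z n ≤ L := by
      refine le_trans ?_ hV
      unfold lamz
      split_ifs
      · exact le_rfl
      · exact (inv_pos.2 (Vz_pos z)).le
    rw [abs_le]
    constructor <;> linarith
  refine (sum_le_sum hb).trans ?_
  rw [sum_const, Nat.card_Icc, nsmul_eq_mul, Nat.add_sub_cancel]
  have h5 : (X' : ℝ) ≤ 14 * X := by
    have : (X' : ℝ) ≤ X := by exact_mod_cast hXX'
    have : (0 : ℝ) ≤ X := Nat.cast_nonneg _
    linarith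
  exact mul_le_mul_of_nonneg_right h5 (by positivity)

/-- the second moment is small -/
theorem gl_varA (b F : ℕ) (hb : 2 ≤ b) (hF : 1 ≤ F) (U D a B₁ : ℕ) (ha : 1 ≤ a) : ∃ B : ℕ, ∀ Ez : ℕ, ∃ K₀ : ℕ, ∀ K : ℕ, K₀ ≤ K →
    ∀ X' : ℕ, a * X' ≤ b ^ K → b ^ K ≤ B₁ * X' →
    ∀ z : ℕ, Real.log ((b ^ K : ℕ) : ℝ) ^ B ≤ z → (z : ℝ) ≤ Real.log ((b ^ K : ℕ) : ℝ) ^ Ez →
    ∀ (ι : Type) (Ω : Finset ι) (p : ι → ℝ) (Y : ι → ℤ), Law b F D (U + 6) K Ω p Y →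
    ∀ (f : ℕ → ℂ) (Fb : ℝ), 0 ≤ Fb → (∀ n ∈ Icc 1 (b ^ K), ‖f n‖ ≤ Fb) →
    ∀ A : ℕ → ℂ, (∀ r, ‖A r‖ = ‖FC f (b ^ K) (b ^ (K + 1)) r‖ * ‖FC (dL a X' z) (b ^ K) (b ^ (K + 1)) r‖) →
    ∑ ω ∈ Ω, p ω * ‖EE A (b ^ (K + 1)) (Y ω)‖ ^ 2 ≤ (Fb * ((b ^ (K + 1) : ℕ) : ℝ) * ((b ^ K : ℕ) : ℝ)) ^ 2 / (K : ℝ) ^ U := by
  classical
  have hbr : (2 : ℝ) ≤ b := by exact_mod_cast hb
  obtain ⟨R, hR, hbad⟩ := bad_sqA b hb
  obtain ⟨A₁, B, hUA, hB⟩ := hbad F (max (2 * (U + 6)) (D * R)) a B₁ ha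
  refine ⟨B, fun Ez => ?_⟩
  obtain ⟨k1, h1⟩ := hB Ez
  obtain ⟨N2, h2⟩ := G_sqA Ez
  obtain ⟨k3, h3⟩ := hh_small b A₁ 4 hb
  obtain ⟨C, hC⟩ : ∃ C : ℝ, C = 4 * b := ⟨_, rfl⟩
  have hC0 : 0 ≤ C := by rw [hC]; positivity
  obtain ⟨k4, hk4⟩ := exists_nat_ge (C * (1 + C))
  refine ⟨k1 + N2 + k3 + k4 + 4, fun K hk X' hX'1 hX'2 z hz1 hz2 ι Ω p Yv hlaw f Fb hFb0 hFb Af hAf => ?_⟩
  obtain ⟨X, hX⟩ : ∃ X, X = b ^ K := ⟨_, rfl⟩
  obtain ⟨M, hM⟩ : ∃ M, M = b ^ (K + 1) := ⟨_, rfl⟩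
  have hchar := hlaw.char
  rw [← hX] at hz1 hz2 hFb hAf hX'1 hX'2 ⊢
  rw [← hM] at hAf hchar ⊢
  have hKX : K < X := by rw [hX]; exact Nat.lt_pow_self (by omega)
  have hXM : X ≤ M := by rw [hX, hM]; exact Nat.pow_le_pow_right (by omega) (by omega)
  have hX0 : (0 : ℝ) < X := by exact_mod_cast (by omega : 0 < X)
  have hM0 : (0 : ℝ) < M := by exact_mod_cast (by omega : 0 < M)
  obtain ⟨hL1, hL2⟩ := logX b K hb
  rw [← hX] at hL1 hL2
  obtain ⟨L, hL⟩ : ∃ L, L = Real.log (X : ℝ) := ⟨_, rfl⟩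
  rw [← hL] at hL1 hL2 hz1 hz2
  have hK4 : (4 : ℝ) ≤ K := by exact_mod_cast (by omega : 4 ≤ K)
  have hL0 : 0 < L := by linarith
  have hz : 1 ≤ z := by
    have : (1 : ℝ) ≤ z := (one_le_pow₀ (by linarith : 1 ≤ L)).trans hz1
    exact_mod_cast this
  obtain ⟨G, hG⟩ : ∃ G : ℕ → ℂ, G = FC (dL a X' z) X M := ⟨_, rfl⟩
  have hG2 := h2 X (by omega) M hXM a X' ha hX'1 z hz (by rw [← hL]; exact hz2)
  simp only [← hG] at hG2 hAf
  rw [← hL] at hG2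
  obtain ⟨Fn, hFn⟩ : ∃ Fn : ℕ → ℝ, Fn = fun r => ‖FC f X M r‖ := ⟨_, rfl⟩
  have hAf' : ∀ r, ‖Af r‖ = Fn r * ‖G r‖ := fun r => by rw [hAf, hFn]
  have hFn0 : ∀ r, 0 ≤ Fn r := fun r => by rw [hFn]; exact norm_nonneg _
  have hF2 : ∑ r ∈ range M, Fn r ^ 2 ≤ M * (Fb ^ 2 * X) := by
    rw [hFn]
    simp only
    rw [FC_pars f X M (by omega) hXM]
    apply mul_le_mul_of_nonneg_left _ (Nat.cast_nonneg _)
    have h1 : ∀ n ∈ Icc 1 X, ‖f n‖ ^ 2 ≤ Fb ^ 2 := by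
      intro n hn
      exact pow_le_pow_left₀ (norm_nonneg _) (hFb n hn) 2
    refine (sum_le_sum h1).trans (le_of_eq ?_)
    rw [sum_const, Nat.card_Icc, nsmul_eq_mul, Nat.add_sub_cancel, mul_comm]
  -- the bound of the characteristic function
  obtain ⟨s, hs⟩ : ∃ s : ℕ → ℕ → ℕ, s = fun r r' => (F * r' + F * (M - r)) % M := ⟨_, rfl⟩
  obtain ⟨g, hg⟩ : ∃ g : ℕ → ℝ, g = fun t => if D * (Nat.log b K + 1) ≤ ne b 0 K ((F * t) % M) then 1 / (K : ℝ) ^ (U + 6) else 1 := ⟨_, rfl⟩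
  have hgt : ∀ t, g t = if D * (Nat.log b K + 1) ≤ ne b 0 K ((F * t) % M) then 1 / (K : ℝ) ^ (U + 6) else 1 := fun t => by rw [hg]
  have hK1 : (1 : ℝ) ≤ (K : ℝ) ^ (U + 6) := one_le_pow₀ (by linarith)
  have hg1 : ∀ t, g t ≤ 1 := by
    intro t
    rw [hgt]
    split_ifs
    · rw [div_le_one (by linarith)]; exact hK1
    · exact le_rfl
  have hg0 : ∀ t, 0 ≤ g t := by
    intro t
    rw [hgt]
    split_ifs
    · positivity
    · norm_num
  have hvar := gen_var Ω p hlaw.nonneg Yv M (by omega) Af g (by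
    intro t
    rw [hgt]
    split_ifs with hc
    · exact hchar t hc
    · refine (norm_sum_le _ _).trans (le_trans ?_ hlaw.le_one)
      apply sum_le_sum
      intro ω hω
      rw [norm_mul, norm_ee, mul_one, Complex.norm_real, Real.norm_of_nonneg (hlaw.nonneg ω hω)])
  refine hvar.trans ?_
  clear hvar
  obtain ⟨T, hTd⟩ : ∃ T, T = ∑ r ∈ range M, Fn r * ‖G r‖ := ⟨_, rfl⟩
  have hT0 : 0 ≤ T := by rw [hTd]; exact sum_nonneg fun r _ => mul_nonneg (hFn0 r) (norm_nonneg _)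
  obtain ⟨Y, hY⟩ : ∃ Y, Y = Fb * M * X := ⟨_, rfl⟩
  have hY0 : 0 ≤ Y := by rw [hY]; positivity
  have hT' : T ≤ C * (K : ℝ) ^ 2 * Y := by
    have e1 := Real.sum_mul_le_sqrt_mul_sqrt (range M) Fn (fun r => ‖G r‖)
    have e2 : T ≤ √(M * (Fb ^ 2 * X)) * √(M * (14 * X * L ^ 2)) := by
      rw [hTd]
      refine e1.trans ?_
      exact mul_le_mul (Real.sqrt_le_sqrt hF2) (Real.sqrt_le_sqrt hG2) (Real.sqrt_nonneg _) (Real.sqrt_nonneg _)
    refine e2.trans ((sqrt_num2 M X Fb L K b hM0.le hX0.le hFb0 hL0.le hL2).trans ?_)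
    rw [hC, ← hY]
    have : (K : ℝ) ≤ (K : ℝ) ^ 2 := by nlinarith
    gcongr
  -- the rows
  have hrow : ∀ r ∈ range M, ∑ r' ∈ range M, ‖Af r'‖ * g (r' + (M - r)) ≤ Y / (K : ℝ) ^ (U + 6) + 1 / (K : ℝ) ^ (U + 6) * T := by
    intro r hr
    rw [mem_range] at hr
    have hss : ∀ r', (F * r' + F * (M - r)) % M = s r r' := fun r' => by rw [hs]
    rw [← sum_filter_add_sum_filter_not (range M) (fun r' => Bad b R K (hh b A₁ K) (K / (16 * b)) (s r r'))]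
    apply add_le_add
    · have e1 := h1 K (by omega) X' (by rw [← hX]; exact hX'1) (by rw [← hX]; exact hX'2) z
        (by rw [← hX, ← hL]; exact hz1) (by rw [← hX, ← hL]; exact hz2) (F * (M - r)) F hF
        ((Nat.lt_pow_self (by omega : 1 < b)).le) ((range M).filter (fun r' => Bad b R K (hh b A₁ K) (K / (16 * b)) (s r r'))) (by
          intro r' hr'
          rw [mem_filter, mem_range] at hr'
          rw [← hM, hss]
          exact hr')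
      rw [← hX, ← hM] at e1
      simp only [← hG] at e1
      have e2 : ∑ r' ∈ (range M).filter (fun r' => Bad b R K (hh b A₁ K) (K / (16 * b)) (s r r')), ‖Af r'‖ * g (r' + (M - r)) ≤
          ∑ r' ∈ (range M).filter (fun r' => Bad b R K (hh b A₁ K) (K / (16 * b)) (s r r')), Fn r' * ‖G r'‖ := by
        apply sum_le_sum
        intro r' _
        rw [hAf' r']
        exact mul_le_of_le_one_right (mul_nonneg (hFn0 _) (norm_nonneg _)) (hg1 _)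
      have e3 := Real.sum_mul_le_sqrt_mul_sqrt ((range M).filter (fun r' => Bad b R K (hh b A₁ K) (K / (16 * b)) (s r r')))
        Fn (fun r => ‖G r‖)
      refine e2.trans (e3.trans ?_)
      have e4 : ∑ r' ∈ (range M).filter (fun r' => Bad b R K (hh b A₁ K) (K / (16 * b)) (s r r')), Fn r' ^ 2 ≤ M * (Fb ^ 2 * X) :=
        (sum_le_sum_of_subset_of_nonneg (filter_subset _ _) fun _ _ _ => sq_nonneg _).trans hF2
      have e5 := sqrt_num M X Fb _ hM0.le hX0.le hFb0 (U + 6) K (by linarith) (e1.trans (by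
        apply div_le_div_of_nonneg_left (by positivity) (by positivity)
        exact pow_le_pow_right₀ (by linarith) (le_max_left _ _)))
      rw [hY]
      exact (mul_le_mul_of_nonneg_right (Real.sqrt_le_sqrt e4) (Real.sqrt_nonneg _)).trans e5
    · have e1 : ∀ r' ∈ (range M).filter (fun r' => ¬ Bad b R K (hh b A₁ K) (K / (16 * b)) (s r r')),
          ‖Af r'‖ * g (r' + (M - r)) ≤ (Fn r' * ‖G r'‖) * (1 / (K : ℝ) ^ (U + 6)) := by
        intro r' hr'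
        rw [mem_filter] at hr'
        rw [hAf' r']
        apply mul_le_mul_of_nonneg_left _ (mul_nonneg (hFn0 _) (norm_nonneg _))
        rw [hgt, if_pos]
        have hmod : (F * (r' + (M - r))) % M = s r r' := by rw [← hss, mul_add]
        rw [hmod]
        have hnb := hr'.2
        unfold Bad at hnb
        by_contra hcon
        push Not at hcon
        have h4 := h3 K (by omega)
        have hbound : ne b 0 K (s r r') * R ≤ 2 * hh b A₁ K := by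
          have a1 : ne b 0 K (s r r') * R ≤ D * (Nat.log b K + 1) * R := Nat.mul_le_mul_right _ hcon.le
          refine a1.trans ?_
          unfold hh
          have a2 : D * R ≤ A₁ := (le_max_right _ _).trans hUA
          calc D * (Nat.log b K + 1) * R = (D * R) * (Nat.log b K + 1) := by ring
            _ ≤ A₁ * (Nat.log b K + 1) := Nat.mul_le_mul_right _ a2
            _ ≤ 4 * (A₁ * (Nat.log b K + 1)) := by omega
            _ = 2 * (2 * A₁ * (Nat.log b K + 1)) := by ring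
        have hm2 : 2 * (K / (16 * b) / 8) ≤ K := by
          have a1 : K / (16 * b) / 8 * 8 ≤ K / (16 * b) := Nat.div_mul_le_self _ _
          have a2 : K / (16 * b) ≤ K := Nat.div_le_self _ _
          omega
        apply hnb
        refine ⟨?_, ?_, ?_⟩
        · have a1 := ne_window b (K - 1 - hh b A₁ K) (hh b A₁ K) 0 K (s r r') (by omega) (by omega)
          have a2 := Nat.mul_le_mul_right R a1
          omega
        · have a1 := ne_window b 1 (hh b A₁ K) 0 K (s r r') (by omega) (by omega)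
          have a2 := Nat.mul_le_mul_right R a1
          omega
        · have a1 := ne_window b (K / (16 * b) / 8) (K - 2 * (K / (16 * b) / 8)) 0 K (s r r') (by omega) (by omega)
          have a2 := Nat.mul_le_mul_right R a1
          omega
      refine (sum_le_sum e1).trans ?_
      rw [← sum_mul, mul_comm]
      apply mul_le_mul_of_nonneg_left _ (by positivity)
      rw [hTd]
      exact sum_le_sum_of_subset_of_nonneg (filter_subset _ _) fun _ _ _ => mul_nonneg (hFn0 _) (norm_nonneg _)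
  have hsum2 : ∑ r ∈ range M, ‖Af r‖ * ∑ r' ∈ range M, ‖Af r'‖ * g (r' + (M - r)) ≤
      T * (Y / (K : ℝ) ^ (U + 6) + 1 / (K : ℝ) ^ (U + 6) * T) := by
    have : ∀ r ∈ range M, ‖Af r‖ * ∑ r' ∈ range M, ‖Af r'‖ * g (r' + (M - r)) ≤
        (Fn r * ‖G r‖) * (Y / (K : ℝ) ^ (U + 6) + 1 / (K : ℝ) ^ (U + 6) * T) := fun r hr => by
      rw [hAf' r]
      exact mul_le_mul_of_nonneg_left (hrow r hr) (mul_nonneg (hFn0 _) (norm_nonneg _))
    refine (sum_le_sum this).trans (le_of_eq ?_)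
    rw [← sum_mul, hTd]
  refine hsum2.trans ?_
  rw [← hY]
  exact var_num2 T Y C K U (by linarith) hY0 hT0 hC0 hT' (hk4.trans (by exact_mod_cast (by omega : k4 ≤ K)))

/-- the function on the integers -/
noncomputable def dLI (a X' z : ℕ) (n : ℤ) : ℝ :=
  if 1 ≤ n ∧ a ∣ n.toNat ∧ n.toNat / a ≤ X' then ArithmeticFunction.vonMangoldt (n.toNat / a) - lamz z (n.toNat / a) else 0

/-- one random constant, along the multiples of `a` -/
theorem one_lawA (b F : ℕ) (hb : 2 ≤ b) (hF : 1 ≤ F) (U D a B₁ : ℕ) (ha : 1 ≤ a) : ∃ B0 : ℕ, ∀ Ez : ℕ, ∃ K₀ : ℕ, ∀ K : ℕ, K₀ ≤ K →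
    ∀ X' : ℕ, a * X' ≤ b ^ K → b ^ K ≤ B₁ * X' →
    ∀ z : ℕ, Real.log ((b ^ K : ℕ) : ℝ) ^ B0 ≤ z → (z : ℝ) ≤ Real.log ((b ^ K : ℕ) : ℝ) ^ Ez →
    ∀ (ι : Type) (Ω : Finset ι) (p : ι → ℝ) (Y : ι → ℤ), Law b F D (2 * U + 6) K Ω p Y → ∑ ω ∈ Ω, p ω = 1 →
    ∀ N : ℕ, (∀ ω ∈ Ω, -((b ^ K : ℕ) : ℤ) < Y ω ∧ (N : ℤ) + Y ω ≤ ((b ^ K : ℕ) : ℤ)) → N ≤ b ^ K →
    ∀ Kc : ℝ, 0 < Kc → ∀ G : ℕ → ℝ, (∀ n ∈ Icc 1 N, |G n| ≤ Kc) →
    ∑ ω ∈ Ω, p ω * |∑ n ∈ Icc 1 N, G n * dLI a X' z ((n : ℤ) + Y ω)| ≤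
      Kc * (((b ^ K : ℕ) : ℝ) / (K : ℝ) ^ U) := by
  classical
  obtain ⟨B, hB⟩ := gl_varA b F hb hF (2 * U) D a B₁ ha
  refine ⟨B, fun Ez => ?_⟩
  obtain ⟨k₀, h0⟩ := hB Ez
  refine ⟨k₀ + 1, fun K hk X' hX'1 hX'2 z hz1 hz2 ι Ω p Y hlaw hp1 N hY hNX Kc hK G hG => ?_⟩
  obtain ⟨f, hf⟩ : ∃ f : ℕ → ℂ, f = fun n => if n ≤ N then ((G n : ℝ) : ℂ) else 0 := ⟨_, rfl⟩
  have hf0 : ∀ n, N < n → f n = 0 := by
    intro n hn
    rw [hf]
    simp only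
    rw [if_neg (by omega)]
  have hf1 : ∀ n, n ≤ N → f n = ((G n : ℝ) : ℂ) := by
    intro n hn
    rw [hf]
    simp only
    rw [if_pos hn]
  have h1 := h0 K (by omega) X' hX'1 hX'2 z hz1 hz2 ι Ω p Y hlaw (fun n => (starRingEnd ℂ) (f n)) Kc hK.le (by
    intro n hn
    rw [RCLike.norm_conj]
    rcases Nat.lt_or_ge N n with h | h
    · rw [hf0 n h, norm_zero]; exact hK.le
    · rw [hf1 n h, Complex.norm_real]; exact hG n (mem_Icc.2 ⟨(mem_Icc.1 hn).1, h⟩))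
    (fun r => (starRingEnd ℂ) (FC (fun n => (starRingEnd ℂ) (f n)) (b ^ K) (b ^ (K + 1)) r) *
        FC (dL a X' z) (b ^ K) (b ^ (K + 1)) r) (by
      intro r
      rw [norm_mul, RCLike.norm_conj])
  have hbn : 0 < b := by omega
  have hX1 : 1 ≤ b ^ K := Nat.pow_pos hbn
  have hM0 : (0 : ℝ) < ((b ^ (K + 1) : ℕ) : ℝ) := by exact_mod_cast Nat.pow_pos hbn
  have hX0 : (0 : ℝ) < ((b ^ K : ℕ) : ℝ) := by exact_mod_cast hX1
  have hk0 : (0 : ℝ) < K := by exact_mod_cast (by omega : 0 < K)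
  apply cs_w Ω p _ hlaw.nonneg hp1 _ (by positivity)
  obtain ⟨T, hT⟩ : ∃ T : ι → ℝ, T = fun ω => ∑ n ∈ Icc 1 N, G n * dLI a X' z ((n : ℤ) + Y ω) := ⟨_, rfl⟩
  have h2 : ∀ ω ∈ Ω, p ω * ‖EE (fun r => (starRingEnd ℂ) (FC (fun n => (starRingEnd ℂ) (f n)) (b ^ K) (b ^ (K + 1)) r) *
      FC (dL a X' z) (b ^ K) (b ^ (K + 1)) r) (b ^ (K + 1)) (Y ω)‖ ^ 2 =
      ((b ^ (K + 1) : ℕ) : ℝ) ^ 2 * (p ω * T ω ^ 2) := by
    intro ω hω
    have hMX : 2 * b ^ K ≤ b ^ (K + 1) := by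
      rw [pow_succ, mul_comm]
      exact Nat.mul_le_mul_left _ hb
    have h3 := EE_corrC f (dL a X' z) (b ^ K) (b ^ (K + 1)) N hX1 hMX hNX hf0 (Y ω) (hY ω hω).1 (hY ω hω).2
    have h4 : ∑ n ∈ Icc 1 N, f n * (if 1 ≤ (n : ℤ) + Y ω then (dL a X' z) ((n : ℤ) + Y ω).toNat else 0) = ((T ω : ℝ) : ℂ) := by
      rw [hT]
      simp only
      rw [Complex.ofReal_sum]
      apply sum_congr rfl
      intro n hn
      rw [mem_Icc] at hn
      rw [hf1 n hn.2, Complex.ofReal_mul]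
      congr 1
      unfold dLI dL dil
      by_cases h7 : 1 ≤ (n : ℤ) + Y ω
      · by_cases h8 : a ∣ ((n : ℤ) + Y ω).toNat ∧ ((n : ℤ) + Y ω).toNat / a ≤ X'
        · rw [if_pos h7, if_pos h8, if_pos ⟨h7, h8⟩]
        · rw [if_pos h7, if_neg h8, if_neg (fun h => h8 h.2), Complex.ofReal_zero]
      · rw [if_neg h7, if_neg (fun h => h7 h.1), Complex.ofReal_zero]
    rw [h3, h4, norm_mul, Complex.norm_real, Complex.norm_natCast, mul_pow, Real.norm_eq_abs, sq_abs]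
    ring
  rw [sum_congr rfl h2, ← mul_sum] at h1
  have h5 : ∑ ω ∈ Ω, p ω * T ω ^ 2 ≤ (Kc * (((b ^ K : ℕ) : ℝ) / (K : ℝ) ^ U)) ^ 2 := by
    have h6 : ((b ^ (K + 1) : ℕ) : ℝ) ^ 2 * ∑ ω ∈ Ω, p ω * T ω ^ 2 ≤
        ((b ^ (K + 1) : ℕ) : ℝ) ^ 2 * (Kc * (((b ^ K : ℕ) : ℝ) / (K : ℝ) ^ U)) ^ 2 := by
      refine h1.trans (le_of_eq ?_)
      rw [mul_comm 2 U, pow_mul]
      ring
    exact le_of_mul_le_mul_left h6 (by positivity)
  rw [hT] at h5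
  exact h5

end Pool.Agent.N699.SA
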