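import Pool.Agent.W93.LM5
import Pool.Agent.W93.TD2

set_option autoImplicit false

/-! Exponential sums over the multiples of `a`: major and minor arcs. -/

namespace Pool.Agent.N699.SA
open Finset
open Pool.Agent.H807R2.Dav
open Pool.Agent.H373R2.T7 (lamz)
open Pool.Agent.W93.DG
open Pool.Agent.W93.LM

/-- the function `f (n / a)` on the multiples of `a`, cut off -/
noncomputable def dil (a X' : ℕ) (f : ℕ → ℂ) (n : ℕ) : ℂ := if a ∣ n ∧ n / a ≤ X' then f (n / a) else 0

lemma sum_dilG (a X X' : ℕ) (ha : 1 ≤ a) (h : a * X' ≤ X) (f : ℕ → ℂ) (g : ℕ → ℂ) :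
    ∑ n ∈ Icc 1 X, dil a X' f n * g n = ∑ m ∈ Icc 1 X', f m * g (a * m) := by
  classical
  have h1 : ∀ n ∈ Icc 1 X, dil a X' f n * g n = if a ∣ n ∧ n / a ≤ X' then f (n / a) * g n else 0 := by
    intro n _
    unfold dil
    split_ifs
    · rfl
    · rw [zero_mul]
  rw [sum_congr rfl h1, ← sum_filter]
  symm
  refine sum_nbij' (fun n => a * n) (fun m => m / a) ?_ ?_ ?_ ?_ ?_
  · intro n hn
    rw [mem_Icc] at hn
    rw [mem_filter, mem_Icc]
    refine ⟨⟨Nat.mul_pos (by omega) (by omega), (Nat.mul_le_mul_left _ hn.2).trans h⟩, dvd_mul_right _ _, ?_⟩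
    rw [Nat.mul_div_cancel_left _ (by omega)]
    exact hn.2
  · intro m hm
    rw [mem_filter, mem_Icc] at hm
    rw [mem_Icc]
    exact ⟨(Nat.one_le_div_iff (by omega)).2 (Nat.le_of_dvd (by omega) hm.2.1), hm.2.2⟩
  · intro n _
    exact Nat.mul_div_cancel_left _ (by omega)
  · intro m hm
    rw [mem_filter, mem_Icc] at hm
    exact Nat.mul_div_cancel' hm.2.1
  · intro n _
    rw [Nat.mul_div_cancel_left _ (by omega)]

lemma sum_dil (a X X' : ℕ) (ha : 1 ≤ a) (h : a * X' ≤ X) (f : ℕ → ℂ) (α : ℝ) :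
    ∑ n ∈ Icc 1 X, dil a X' f n * ee ((n : ℝ) * α) = ∑ m ∈ Icc 1 X', f m * ee ((m : ℝ) * (a * α)) := by
  rw [sum_dilG a X X' ha h f (fun n => ee ((n : ℝ) * α))]
  apply sum_congr rfl
  intro m _
  congr 2
  push_cast
  ring

/-- a fraction in lowest terms -/
lemma reduce (u : ℤ) (w : ℕ) (hw : 1 ≤ w) : ∃ (q : ℕ) (c : ℤ), 1 ≤ q ∧ IsCoprime c (q : ℤ) ∧ q ≤ w ∧ c * w = u * q := by
  obtain ⟨g, hg⟩ : ∃ g : ℕ, g = Int.gcd u (w : ℤ) := ⟨_, rfl⟩
  have hg0 : 0 < g := by
    rw [hg]
    exact Int.gcd_pos_of_ne_zero_right _ (by omega)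
  have h1 : (g : ℤ) ∣ u := by rw [hg]; exact Int.gcd_dvd_left _ _
  have h2 : (g : ℤ) ∣ (w : ℤ) := by rw [hg]; exact Int.gcd_dvd_right _ _
  have h2' : g ∣ w := by exact_mod_cast h2
  obtain ⟨c, hc⟩ := h1
  obtain ⟨q, hq⟩ := h2'
  have hq1 : 1 ≤ q := by
    by_contra hcon
    have : q = 0 := by omega
    rw [this, mul_zero] at hq
    omega
  refine ⟨q, c, hq1, ?_, ?_, ?_⟩
  · rw [Int.isCoprime_iff_gcd_eq_one]
    have h3 : Int.gcd ((g : ℤ) * c) ((g : ℤ) * q) = g * Int.gcd c q := by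
      rw [Int.gcd_mul_left, Int.natAbs_natCast]
    have h4 : Int.gcd u (w : ℤ) = Int.gcd ((g : ℤ) * c) ((g : ℤ) * q) := by
      rw [← hc, hq]
      push_cast
      rfl
    rw [h3, ← hg] at h4
    exact (Nat.mul_left_cancel hg0 (by rw [mul_one]; exact h4)).symm
  · rw [hq]
    exact Nat.le_mul_of_pos_left _ hg0
  · rw [hc, hq]
    push_cast
    ring

/-- from `f` to its dilation -/
theorem PP_dil (a B X X' V V' : ℕ) (ha : 1 ≤ a) (hX'1 : 1 ≤ X') (hX : a * X' ≤ X) (hX2 : X ≤ B * X') (hV'1 : 1 ≤ V')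
    (hV1 : B * V' ≤ V) (hV2 : V ≤ 2 * B * V') (hVX : 4 * (V * V') ≤ X') (f : ℕ → ℂ) (C : ℝ) (e : ℕ) (hC : 0 ≤ C)
    (hf : PP f C e X' V') : PP (dil a X' f) (C * √(2 * B)) e X V := by
  intro α
  rw [sum_dil a X X' ha hX f α]
  obtain ⟨β, hβ⟩ : ∃ β : ℝ, β = a * α := ⟨_, rfl⟩
  rw [← hβ]
  have hfβ := hf β
  obtain ⟨SS, hSS⟩ : ∃ SS : ℝ, SS = ‖∑ m ∈ Icc 1 X', f m * ee ((m : ℝ) * β)‖ := ⟨_, rfl⟩
  rw [← hSS] at hfβ ⊢
  have haB : a ≤ B := by
    have h1 : a * X' ≤ B * X' := hX.trans hX2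
    exact Nat.le_of_mul_le_mul_right h1 (by omega)
  have hB1 : 1 ≤ B := ha.trans haB
  have ha0 : (0 : ℝ) < a := by exact_mod_cast ha
  have hB0 : (0 : ℝ) < B := by exact_mod_cast hB1
  have haBr : (a : ℝ) ≤ B := by exact_mod_cast haB
  have hX'0 : (0 : ℝ) < X' := by exact_mod_cast hX'1
  have hXX' : X' ≤ X := (Nat.le_mul_of_pos_left _ ha).trans hX
  have hXX'r : (X' : ℝ) ≤ X := by exact_mod_cast hXX'
  have hX0 : (0 : ℝ) < X := by linarith
  have hXr : (a : ℝ) * X' ≤ X := by exact_mod_cast hX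
  have hX2r : (X : ℝ) ≤ B * X' := by exact_mod_cast hX2
  have hlog : 0 ≤ Real.log (X' : ℝ) := Real.log_natCast_nonneg _
  have hlog2 : Real.log (X' : ℝ) ≤ Real.log (X : ℝ) := Real.log_le_log hX'0 hXX'r
  have hV'0 : (0 : ℝ) < V' := by exact_mod_cast hV'1
  have hVV' : V' ≤ V := (Nat.le_mul_of_pos_left _ hB1).trans hV1
  have hV0 : (0 : ℝ) < V := by exact_mod_cast (by omega : 0 < V)
  have hV1r : (B : ℝ) * V' ≤ V := by exact_mod_cast hV1
  have hV2r : (V : ℝ) ≤ 2 * B * V' := by exact_mod_cast hV2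
  have hVXr : 4 * ((V : ℝ) * V') ≤ X' := by exact_mod_cast hVX
  -- the numerical comparison
  have hnum : ∀ τ' τ : ℝ, 0 < τ' → 0 < τ → τ ≤ 2 * B * τ' → SS ≤ C * Real.log X' ^ e * X' / √τ' →
      SS ≤ (C * √(2 * B)) * Real.log X ^ e * X / √τ := by
    intro τ' τ hτ' hτ hle h
    refine h.trans ?_
    have hs1 : 0 < √τ' := Real.sqrt_pos.2 hτ'
    have hs2 : 0 < √τ := Real.sqrt_pos.2 hτ
    have hs3 : √τ ≤ √(2 * B) * √τ' := by
      rw [← Real.sqrt_mul (by positivity)]
      exact Real.sqrt_le_sqrt hle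
    rw [div_le_div_iff₀ hs1 hs2]
    have h1 : Real.log X' ^ e ≤ Real.log X ^ e := pow_le_pow_left₀ hlog hlog2 e
    have h2 : 0 ≤ Real.log X' ^ e := by positivity
    calc C * Real.log X' ^ e * X' * √τ ≤ C * Real.log X ^ e * X * (√(2 * B) * √τ') := by
          apply mul_le_mul _ hs3 hs2.le (by
            apply mul_nonneg _ hX0.le
            apply mul_nonneg hC
            exact h2.trans h1)
          apply mul_le_mul _ hXX'r hX'0.le (mul_nonneg hC (h2.trans h1))
          exact mul_le_mul_of_nonneg_left h1 hC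
      _ = _ := by ring
  refine ⟨fun q c hqc => ?_, fun hno => ?_⟩
  · obtain ⟨hq1, hcop, hqV, hτ⟩ := hqc
    have hq0 : (0 : ℝ) < q := by exact_mod_cast hq1
    obtain ⟨q', c', hq'1, hcop', hq'q, heq⟩ := reduce ((a : ℤ) * c) q hq1
    have hq'0 : (0 : ℝ) < q' := by exact_mod_cast hq'1
    have heqr : (c' : ℝ) * q = a * c * q' := by exact_mod_cast heq
    have hfrac : (c' : ℝ) / q' = a * (c / q) := by
      rw [div_eq_iff hq'0.ne']
      field_simp
      linarith
    have hθ : |β - c' / q'| = a * |α - c / q| := by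
      rw [hfrac, hβ, ← mul_sub, abs_mul, abs_of_pos ha0]
    have hqaq' : q ≤ a * q' := by
      have h1 : (q : ℤ) ∣ (a : ℤ) * q' := by
        have h2 : (q : ℤ) ∣ c * ((a : ℤ) * q') := ⟨c', by linarith⟩
        exact hcop.symm.dvd_of_dvd_mul_left h2
      have h3 : q ∣ a * q' := by exact_mod_cast h1
      exact Nat.le_of_dvd (Nat.mul_pos ha hq'1) h3
    have hqaq'r : (q : ℝ) ≤ a * q' := by exact_mod_cast hqaq'
    have hq'qr : (q' : ℝ) ≤ q := by exact_mod_cast hq'q
    obtain ⟨θ, hθd⟩ : ∃ θ : ℝ, θ = |α - c / q| := ⟨_, rfl⟩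
    rw [← hθd] at hθ hτ ⊢
    have hθ0 : 0 ≤ θ := by rw [hθd]; exact abs_nonneg _
    -- β at c'/q', with V
    have hb1 : (q' : ℝ) * (X' * |β - c' / q'|) ≤ V := by
      rw [hθ]
      calc (q' : ℝ) * (X' * (a * θ)) = q' * ((a * X') * θ) := by ring
        _ ≤ q * (X * θ) := by
            apply mul_le_mul hq'qr _ (by positivity) hq0.le
            exact mul_le_mul_of_nonneg_right hXr hθ0
        _ ≤ V := hτ
    have hτ0 : 0 < max (q : ℝ) (q * (X * θ)) := hq0.trans_le (le_max_left _ _)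
    by_cases hmaj : ∃ (q'' : ℕ) (c'' : ℤ), MajAt X' V' β q'' c''
    · obtain ⟨q'', c'', hq''1, hcop'', hq''V, hτ''⟩ := hmaj
      have hq''0 : (0 : ℝ) < q'' := by exact_mod_cast hq''1
      -- the two fractions agree
      have hsame : (c' : ℤ) * q'' = c'' * q' := by
        by_contra hne
        have h1 : (1 : ℝ) ≤ |(c' : ℝ) * q'' - c'' * q'| := by
          have h2 : (1 : ℤ) ≤ |c' * q'' - c'' * q'| := Int.one_le_abs (sub_ne_zero.2 hne)
          exact_mod_cast h2
        have h2 : |(c' : ℝ) * q'' - c'' * q'| = q' * q'' * |(c' : ℝ) / q' - c'' / q''| := by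
          rw [← abs_of_pos (mul_pos hq'0 hq''0), ← abs_mul]
          congr 1
          field_simp
        have h3 : |(c' : ℝ) / q' - c'' / q''| ≤ |β - c' / q'| + |β - c'' / q''| := by
          have h4 := abs_sub_le ((c' : ℝ) / q') β (c'' / q'')
          rw [abs_sub_comm ((c' : ℝ) / q') β] at h4
          exact h4
        have hq'V : (q' : ℝ) ≤ V := by exact_mod_cast hq'q.trans hqV
        have hq''V' : (q'' : ℝ) ≤ V' := by exact_mod_cast hq''V
        have h5 : q' * q'' * |(c' : ℝ) / q' - c'' / q''| * X' ≤ V * V' + V * V' := by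
          calc q' * q'' * |(c' : ℝ) / q' - c'' / q''| * X' ≤ q' * q'' * (|β - c' / q'| + |β - c'' / q''|) * X' := by
                apply mul_le_mul_of_nonneg_right _ hX'0.le
                exact mul_le_mul_of_nonneg_left h3 (by positivity)
            _ = (q' * (X' * |β - c' / q'|)) * q'' + q' * (q'' * (X' * |β - c'' / q''|)) := by ring
            _ ≤ V * V' + V * V' := by
                apply add_le_add
                · exact mul_le_mul hb1 hq''V' hq''0.le hV0.le
                · exact mul_le_mul hq'V hτ'' (by positivity) hV0.le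
        have h6 : (X' : ℝ) ≤ V * V' + V * V' := by
          calc (X' : ℝ) = 1 * X' := (one_mul _).symm
            _ ≤ |(c' : ℝ) * q'' - c'' * q'| * X' := mul_le_mul_of_nonneg_right h1 hX'0.le
            _ = q' * q'' * |(c' : ℝ) / q' - c'' / q''| * X' := by rw [h2]
            _ ≤ _ := h5
        have h7 : 0 < (V : ℝ) * V' := by positivity
        linarith
      have hqq : q'' = q' := by
        have h1 : (q'' : ℤ) ∣ q' := by
          have h2 : (q'' : ℤ) ∣ c'' * q' := ⟨c', by linarith⟩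
          exact hcop''.symm.dvd_of_dvd_mul_left h2
        have h3 : (q' : ℤ) ∣ q'' := by
          have h2 : (q' : ℤ) ∣ c' * q'' := ⟨c'', by linarith⟩
          exact hcop'.symm.dvd_of_dvd_mul_left h2
        have h4 : q'' ∣ q' := by exact_mod_cast h1
        have h5 : q' ∣ q'' := by exact_mod_cast h3
        exact Nat.dvd_antisymm h4 h5
      subst hqq
      have hcc : c'' = c' := by
        have h1 : (q'' : ℤ) ≠ 0 := by exact_mod_cast (by omega : q'' ≠ 0)
        exact (mul_right_cancel₀ h1 hsame).symm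
      subst hcc
      have h1 := hfβ.1 q'' c'' ⟨hq''1, hcop'', hq''V, hτ''⟩
      refine hnum _ _ (hq''0.trans_le (le_max_left _ _)) hτ0 ?_ h1
      rw [hθ]
      apply max_le
      · calc (q : ℝ) ≤ a * q'' := hqaq'r
          _ ≤ 2 * B * q'' := by
              apply mul_le_mul_of_nonneg_right _ hq''0.le
              linarith
          _ ≤ _ := mul_le_mul_of_nonneg_left (le_max_left _ _) (by positivity)
      · calc (q : ℝ) * (X * θ) ≤ (a * q'') * ((B * X') * θ) := by
              apply mul_le_mul hqaq'r _ (by positivity) (by positivity)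
              exact mul_le_mul_of_nonneg_right hX2r hθ0
          _ = B * (q'' * (X' * (a * θ))) := by ring
          _ ≤ 2 * B * (q'' * (X' * (a * θ))) := by
              apply mul_le_mul_of_nonneg_right _ (by positivity)
              linarith
          _ ≤ _ := mul_le_mul_of_nonneg_left (le_max_right _ _) (by positivity)
    · have h1 := hfβ.2 hmaj
      refine hnum _ _ hV'0 hτ0 ?_ h1
      apply max_le
      · have : (q : ℝ) ≤ V := by exact_mod_cast hqV
        linarith
      · linarith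
  · -- α is on no major arc, and neither is β
    have hno' : ¬ ∃ (q : ℕ) (c : ℤ), MajAt X' V' β q c := by
      rintro ⟨q', c', hq'1, hcop', hq'V, hτ'⟩
      apply hno
      have hq'0 : (0 : ℝ) < q' := by exact_mod_cast hq'1
      obtain ⟨q, c, hq1, hcop, hqq', heq⟩ := reduce c' (a * q') (Nat.mul_pos ha hq'1)
      have hq0 : (0 : ℝ) < q := by exact_mod_cast hq1
      have heqr : (c : ℝ) * (a * q') = c' * q := by exact_mod_cast heq
      have hfrac : (c' : ℝ) / q' = a * (c / q) := by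
        rw [div_eq_iff hq'0.ne']
        field_simp
        linarith
      have hθ : |β - c' / q'| = a * |α - c / q| := by
        rw [hfrac, hβ, ← mul_sub, abs_mul, abs_of_pos ha0]
      rw [hθ] at hτ'
      have hqr : (q : ℝ) ≤ a * q' := by exact_mod_cast hqq'
      have hθ0 : 0 ≤ |α - c / q| := abs_nonneg _
      refine ⟨q, c, hq1, hcop, ?_, ?_⟩
      · calc q ≤ a * q' := hqq'
          _ ≤ B * V' := Nat.mul_le_mul haB hq'V
          _ ≤ V := hV1
      · calc (q : ℝ) * (X * |α - c / q|) ≤ (a * q') * ((B * X') * |α - c / q|) := by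
              apply mul_le_mul hqr _ (by positivity) (by positivity)
              exact mul_le_mul_of_nonneg_right hX2r hθ0
          _ = B * (q' * (X' * (a * |α - c / q|))) := by ring
          _ ≤ B * V' := mul_le_mul_of_nonneg_left hτ' hB0.le
          _ ≤ V := hV1r
    exact hnum _ _ hV'0 hV0 hV2r (hfβ.2 hno')

end Pool.Agent.N699.SA
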